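import Pool.Agent.Helper39.Uct.Goals3
import Pool.Agent.Helper39.Uct.NullK

/-!
# FINT: topologically graded by a finite group with commutative unit fibre
-/

set_option autoImplicit false

open scoped ComplexOrder

namespace Pool.Agent.Helper42.Uct2

open Pool.Agent.Helper39.Uct Fib

section

variable {Q : Type} [Group Q] {B : Type} [NonUnitalCStarAlgebra B] {G : Fib Q B}

theorem pos_comp (E : B →L[ℂ] B) (hE : IsE G E) (φ : G.Pt) (b : B) :
    0 ≤ φ (E (star b * b)) := by
  classical
  have hcont : Continuous fun b : B => φ (E (star b * b)) :=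
    (pt_cont φ).comp (E.continuous.comp (by fun_prop))
  have hcl : IsClosed {b : B | 0 ≤ φ (E (star b * b))} := by
    have : {b : B | 0 ≤ φ (E (star b * b))} = (fun b : B => φ (E (star b * b))) ⁻¹' Set.Ici 0 := rfl
    rw [this]
    exact isClosed_Ici.preimage hcont
  have hS : ((⨆ q, G.fib q : Submodule ℂ B) : Set B) ⊆ {b : B | 0 ≤ φ (E (star b * b))} := by
    intro b hb
    obtain ⟨f, hf, rfl⟩ := (Submodule.mem_iSup_iff_exists_finsupp _ _).1 hb
    have e : E (star (f.sum fun _ x => x) * (f.sum fun _ x => x)) =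
        ∑ p ∈ f.support, star (f p) * f p := by
      simp only [Finsupp.sum]
      rw [star_sum, Finset.sum_mul_sum, map_sum]
      refine Finset.sum_congr rfl fun p hp => ?_
      rw [map_sum, Finset.sum_eq_single p]
      · exact hE.1 _ (smem G (hf p) (hf p))
      · intro q _ hq
        refine hE.2.1 (p⁻¹ * q) ?_ _ (G.mul_mem _ _ _ _ (G.star_mem _ _ (hf p)) (hf q))
        intro h
        exact hq (inv_mul_eq_one.1 h).symm
      · intro h
        exact absurd hp h
    change 0 ≤ φ (E (star (f.sum fun _ x => x) * (f.sum fun _ x => x)))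
    rw [e, map_sum]
    exact Finset.sum_nonneg fun p _ => φ.pos _
  have hd : closure ((⨆ q, G.fib q : Submodule ℂ B) : Set B) = Set.univ := by
    have h := G.dense
    have h2 := congrArg (fun S : Submodule ℂ B => (S : Set B)) h
    simpa [Submodule.topologicalClosure_coe] using h2
  have := closure_minimal hS hcl
  rw [hd] at this
  exact this (Set.mem_univ b)

/-- The point composed with the projection. -/
def compPt (E : B →L[ℂ] B) (hE : IsE G E) (φ : G.Pt) : G.Pt where
  toFun := φ.toFun ∘ₗ (E : B →ₗ[ℂ] B)
  bound := fun b => (φ.bound _).trans (hE.2.2 b)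
  pos := fun b => pos_comp E hE φ b
  mult := by
    intro c hc c' hc'
    change φ (E (c * c')) = φ (E c) * φ (E c')
    rw [hE.1 _ (unit_mul G hc hc'), hE.1 _ hc, hE.1 _ hc']
    exact φ.mult c hc c' hc'
  nz := by
    obtain ⟨c, hc, h⟩ := φ.nz
    refine ⟨c, hc, ?_⟩
    change φ (E c) ≠ 0
    rw [hE.1 _ hc]
    exact h

theorem compPt_apply (E : B →L[ℂ] B) (hE : IsE G E) (φ : G.Pt) (b : B) :
    compPt E hE φ b = φ (E b) := rfl

/-- Modulo the left kernel the algebra is spanned by one element from each fibre. -/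
theorem exists_span [Finite Q] (hG : G.Comm) (E : B →L[ℂ] B) (hE : IsE G E) (φ : G.Pt) :
    ∃ v : Q → B, ∀ b : B, ∃ c : Q → ℂ,
      letI := Fintype.ofFinite Q
      b - ∑ q, c q • v q ∈ Nul (compPt E hE φ) := by
  classical
  let _ := Fintype.ofFinite Q
  set ψ := compPt E hE φ with hψ
  have hv : ∀ q, ∃ v ∈ G.fib q, (ψ (star v * v) ≠ 0) ∨ (v = 0 ∧ ∀ b ∈ G.fib q, ψ (star b * b) = 0) := by
    intro q
    by_cases h : ∃ b ∈ G.fib q, ψ (star b * b) ≠ 0
    · obtain ⟨b, hb, h⟩ := h
      exact ⟨b, hb, Or.inl h⟩
    · push Not at h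
      exact ⟨0, Submodule.zero_mem _, Or.inr ⟨rfl, h⟩⟩
  choose v hv hv2 using hv
  refine ⟨v, fun b => ⟨fun q => ψ (star (v q) * b) / ψ (star (v q) * v q), ?_⟩⟩
  change b - ∑ q, (ψ (star (v q) * b) / ψ (star (v q) * v q)) • v q ∈ Nul ψ
  have hψc := pt_cont ψ
  set P : B → B := fun b => b - ∑ q, (ψ (star (v q) * b) / ψ (star (v q) * v q)) • v q with hP
  have hPc : Continuous P := by
    refine continuous_id.sub (continuous_finsetSum _ fun q _ => ?_)
    refine Continuous.smul ?_ continuous_const
    exact (hψc.comp (by fun_prop)).div_const _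
  have hcl : IsClosed {b : B | P b ∈ Nul ψ} := by
    have : {b : B | P b ∈ Nul ψ} = (fun b : B => ψ (star (P b) * P b)) ⁻¹' {0} := rfl
    rw [this]
    exact isClosed_singleton.preimage (hψc.comp (by fun_prop))
  have hS : ((⨆ q, G.fib q : Submodule ℂ B) : Set B) ⊆ {b : B | P b ∈ Nul ψ} := by
    intro b hb
    refine Submodule.iSup_induction (p := G.fib) (motive := fun b => P b ∈ Nul ψ) hb ?_ ?_ ?_
    · intro p b hb
      have e : P b = b - (ψ (star (v p) * b) / ψ (star (v p) * v p)) • v p := by
        rw [hP]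
        simp only
        congr 1
        refine Finset.sum_eq_single p ?_ ?_
        · intro q _ hq
          have : ψ (star (v q) * b) = 0 := by
            rw [hψ, compPt_apply, hE.2.1 (q⁻¹ * p) ?_ _
              (G.mul_mem _ _ _ _ (G.star_mem _ _ (hv q)) hb)]
            · exact map_zero φ.toFun
            · intro h
              exact hq (inv_mul_eq_one.1 h)
          rw [this]
          simp
        · intro h
          exact absurd (Finset.mem_univ p) h
      rw [e]
      rcases hv2 p with h | ⟨h, h'⟩
      · exact Nul_prop ψ hG (hv p) hb h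
      · rw [h, smul_zero, sub_zero]
        exact h' b hb
    · rw [hP]
      simp only [mul_zero, sub_eq_add_neg, zero_add]
      have h0 : ∀ q, ψ (star (v q) * 0) = 0 := by
        intro q
        rw [mul_zero]
        exact map_zero ψ.toFun
      have : (∑ q, (ψ (0 : B) / ψ (star (v q) * v q)) • v q) = 0 := by
        refine Finset.sum_eq_zero fun q _ => ?_
        have : ψ (0 : B) = 0 := map_zero ψ.toFun
        rw [this]
        simp
      rw [this]
      simp
    · intro x y hx hy
      have e : P (x + y) = P x + P y := by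
        rw [hP]
        simp only
        have : ∀ q, (ψ (star (v q) * (x + y)) / ψ (star (v q) * v q)) • v q =
            (ψ (star (v q) * x) / ψ (star (v q) * v q)) • v q +
            (ψ (star (v q) * y) / ψ (star (v q) * v q)) • v q := by
          intro q
          rw [← add_smul, ← add_div, mul_add]
          congr 2
          exact map_add ψ.toFun _ _
        simp only [this, Finset.sum_add_distrib]
        abel
      rw [e]
      exact Submodule.add_mem _ hx hy
  have hd : closure ((⨆ q, G.fib q : Submodule ℂ B) : Set B) = Set.univ := by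
    have h := G.dense
    have h2 := congrArg (fun S : Submodule ℂ B => (S : Set B)) h
    simpa [Submodule.topologicalClosure_coe] using h2
  have := closure_minimal hS hcl
  rw [hd] at this
  exact this (Set.mem_univ b)

/-- The left regular representation on the quotient by the left kernel. -/
noncomputable def rep (ψ : G.Pt) : B →ₙₐ[ℂ] Module.End ℂ (B ⧸ Nul ψ) where
  toFun b := (Nul ψ).mapQ (Nul ψ) (LinearMap.mulLeft ℂ b) (fun _ hy => Nul_left ψ hy b)
  map_smul' := by
    intro c b
    apply Submodule.linearMap_qext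
    ext x
    simp only [LinearMap.coe_comp, Function.comp_apply, Submodule.mkQ_apply, Submodule.mapQ_apply,
      LinearMap.mulLeft_apply, MonoidHom.id_apply, LinearMap.smul_apply, smul_mul_assoc]
    rfl
  map_zero' := by
    apply Submodule.linearMap_qext
    ext x
    simp
  map_add' := by
    intro a b
    apply Submodule.linearMap_qext
    ext x
    simp [add_mul]
  map_mul' := by
    intro a b
    apply Submodule.linearMap_qext
    ext x
    simp

theorem rep_mk (ψ : G.Pt) (b x : B) :
    rep ψ b (Submodule.Quotient.mk x) = Submodule.Quotient.mk (b * x) := rfl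

end

/-- The standard polynomial vanishes on linearly dependent families. -/
theorem std_zero {A : Type*} [Ring A] [Algebra ℂ A] [Module.Finite ℂ A] {m : ℕ}
    (hm : Module.finrank ℂ A < m) (y : Fin m → A) :
    ∑ σ : Equiv.Perm (Fin m), ((Equiv.Perm.sign σ : ℤˣ) : ℤ) •
      (List.ofFn (fun i => y (σ i))).prod = 0 := by
  have h : ¬ LinearIndependent ℂ y := by
    intro h
    have := h.fintype_card_le_finrank
    rw [Fintype.card_fin] at this
    omega
  have := (MultilinearMap.alternatization (MultilinearMap.mkPiAlgebraFin ℂ m A)).map_linearDependent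
    y h
  rw [MultilinearMap.alternatization_apply] at this
  rw [← this]
  refine Finset.sum_congr rfl fun σ _ => ?_
  rw [MultilinearMap.domDomCongr_apply, MultilinearMap.mkPiAlgebraFin_apply, Units.smul_def]

theorem fint : S_EE → S_FEF → S_FINT := by
  intro hEE hFEF Q _ _ B _ G hG hT
  classical
  let _ := Fintype.ofFinite Q
  obtain ⟨E, hE, hE1⟩ := hEE Q B G hT
  have hF := hFEF Q B G hT
  obtain ⟨m, hm⟩ : ∃ m, m = Fintype.card Q ^ 2 + 1 := ⟨_, rfl⟩
  refine ⟨m, ?_⟩
  intro y
  set X : Unitization ℂ B := ∑ σ : Equiv.Perm (Fin m), ((Equiv.Perm.sign σ : ℤˣ) : ℤ) •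
    (List.ofFn (fun i => ((y (σ i) : B) : Unitization ℂ B))).prod with hX
  -- X lies in B
  have hfst : X.fst = 0 := by
    have : Unitization.fstHom ℂ B X = 0 := by
      rw [hX, map_sum]
      refine Finset.sum_eq_zero fun σ _ => ?_
      rw [map_zsmul, map_list_prod, List.map_ofFn]
      have : (List.ofFn (⇑(Unitization.fstHom ℂ B) ∘ fun i => ((y (σ i) : B) : Unitization ℂ B))).prod
          = 0 := by
        rw [List.prod_ofFn]
        refine Finset.prod_eq_zero (Finset.mem_univ (⟨0, by omega⟩ : Fin m)) ?_
        simp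
      rw [this, smul_zero]
    exact this
  have hXx : X = (X.snd : Unitization ℂ B) := by
    ext
    · simpa using hfst
    · simp
  set x := X.snd with hx
  suffices h : x = 0 by
    rw [hXx, h]
    simp
  apply hF E hE
  by_contra hne
  obtain ⟨φ, hφ⟩ := t_PE Q B G hG _ (hE1 (star x * x)) hne
  have hne' : φ (E (star x * x)) ≠ 0 := by
    intro h
    rw [h, norm_zero] at hφ
    exact hne (norm_eq_zero.1 hφ.symm)
  apply hne'
  set ψ := compPt E hE φ with hψ
  change ψ (star x * x) = 0
  -- finite dimension
  obtain ⟨v, hv⟩ := exists_span hG E hE φ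
  have hspan : Submodule.span ℂ (Set.range fun q => (Submodule.Quotient.mk (v q) : B ⧸ Nul ψ)) = ⊤ := by
    rw [eq_top_iff]
    rintro z -
    obtain ⟨b, rfl⟩ := Submodule.Quotient.mk_surjective _ z
    obtain ⟨c, hc⟩ := hv b
    have : (Submodule.Quotient.mk b : B ⧸ Nul ψ) =
        Submodule.Quotient.mk (∑ q, c q • v q) := by
      rw [Submodule.Quotient.eq]
      exact hc
    rw [this]
    have e : (Submodule.Quotient.mk (∑ q, c q • v q) : B ⧸ Nul ψ) =
        ∑ q, c q • (Submodule.Quotient.mk (v q) : B ⧸ Nul ψ) := by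
      change (Nul ψ).mkQ _ = ∑ q, c q • (Nul ψ).mkQ (v q)
      rw [map_sum]
      simp only [map_smul]
    rw [e]
    exact Submodule.sum_mem _ fun q _ => Submodule.smul_mem _ _
      (Submodule.subset_span ⟨q, rfl⟩)
  haveI : Module.Finite ℂ (B ⧸ Nul ψ) := by
    refine Module.finite_def.2 ?_
    rw [← hspan]
    exact Submodule.fg_span (Set.finite_range _)
  have hfr : Module.finrank ℂ (B ⧸ Nul ψ) ≤ Fintype.card Q := by
    have := finrank_range_le_card (R := ℂ) fun q => (Submodule.Quotient.mk (v q) : B ⧸ Nul ψ)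
    rw [Set.finrank, hspan, finrank_top] at this
    exact this
  have hfr2 : Module.finrank ℂ (Module.End ℂ (B ⧸ Nul ψ)) < m := by
    have : Module.finrank ℂ (Module.End ℂ (B ⧸ Nul ψ)) =
        Module.finrank ℂ (B ⧸ Nul ψ) * Module.finrank ℂ (B ⧸ Nul ψ) := Module.finrank_linearMap ..
    rw [this, hm, sq]
    have := Nat.mul_le_mul hfr hfr
    omega
  -- the image of X
  have hz : Unitization.lift (rep ψ) X = 0 := by
    rw [hX, map_sum]
    have := std_zero hfr2 fun i => rep ψ (y i)
    rw [← this]
    refine Finset.sum_congr rfl fun σ _ => ?_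
    rw [map_zsmul, map_list_prod, List.map_ofFn]
    congr 3
    funext i
    simp
  have hz : rep ψ x = 0 := by
    rw [hXx] at hz
    simpa using hz
  obtain ⟨h, hh, h1⟩ := pt_exists_one ψ
  have hz2 : x * h ∈ Nul ψ := by
    have := congrArg (fun T : Module.End ℂ (B ⧸ Nul ψ) => T (Submodule.Quotient.mk h)) hz
    simp only [LinearMap.zero_apply] at this
    rw [rep_mk, Submodule.Quotient.mk_eq_zero] at this
    exact this
  rw [mem_Nul] at hz2
  have e : star (x * h) * (x * h) = star h * (star x * x) * h := by
    rw [star_mul]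
    simp only [mul_assoc]
  have hh' := unit_star G hh
  have h1' : ψ (star h) = 1 := by
    rw [pt_herm, h1, star_one]
  rw [e, pt_mulR ψ hh, pt_mulL ψ hh', h1, h1', one_mul, mul_one] at hz2
  exact hz2

end Pool.Agent.Helper42.Uct2
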